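import Pool.Agent.Helper2_Pak.Stmts

/-!
# PAK1, module F3: placed tiles are solid above the line of the bottom side
-/

set_option autoImplicit false

namespace Pool.Agent.Helper2_Pak.H18

open Pool.Agent.Helper2_Pak
open Pool.Agent.Helper2_Pack (Motion)

/-- the motion `z ↦ -(g z)` -/
def neg (g : Motion) : Motion := ⟨-g.u, -g.v, by rw [norm_neg]; exact g.unit⟩

theorem tile_neg (t : ℝ) (g : Motion) : tile t (neg g) = Neg.neg ⁻¹' tile t g := by
  ext z
  simp only [tile, Set.mem_image, Set.mem_preimage]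
  constructor
  · rintro ⟨w, hw, rfl⟩
    exact ⟨w, hw, by simp [Motion.app, neg]; ring⟩
  · rintro ⟨w, hw, h⟩
    refine ⟨w, hw, ?_⟩
    have h2 : z = -(g.app w) := by rw [h, neg_neg]
    rw [h2]
    simp [Motion.app, neg]
    ring

theorem interior_tile_neg (t : ℝ) (g : Motion) (z : ℂ) :
    z ∈ interior (tile t (neg g)) ↔ -z ∈ interior (tile t g) := by
  rw [tile_neg]
  have h := (Homeomorph.neg ℂ).preimage_interior (tile t g)
  have h2 : interior (Neg.neg ⁻¹' tile t g) = Neg.neg ⁻¹' interior (tile t g) := h.symm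
  rw [h2]
  rfl

theorem k2 {k : ℕ} (hk : k < 4) : (k + 2) % 4 < 4 ∧
    Complex.I ^ ((k + 2) % 4) = -Complex.I ^ k ∧
    (-Complex.I) ^ ((k + 2) % 4) = -(-Complex.I) ^ k ∧
    ((k + 2) % 4) % 2 = k % 2 ∧ (2 ≤ k → (k + 2) % 4 ≤ 1) := by
  have h2 : Complex.I ^ 2 = -1 := Complex.I_sq
  have h3 : Complex.I ^ 3 = -Complex.I := by rw [pow_succ, h2]; ring
  interval_cases k
  · refine ⟨by norm_num, ?_, ?_, by norm_num, by norm_num⟩
    · norm_num
    · norm_num
  · refine ⟨by norm_num, ?_, ?_, by norm_num, by norm_num⟩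
    · norm_num [h3]
    · norm_num
      rw [show (-Complex.I) ^ 3 = -(Complex.I ^ 3) by ring, h3]; ring
  · refine ⟨by norm_num, ?_, ?_, by norm_num, by norm_num⟩
    · norm_num
    · norm_num
  · refine ⟨by norm_num, ?_, ?_, by norm_num, by norm_num⟩
    · norm_num [h3]
    · norm_num
      rw [show (-Complex.I) ^ 3 = -(Complex.I ^ 3) by ring, h3]; ring

theorem rot_neg (g : Motion) {k : ℕ} (hk : k < 4) : rot (neg g) ((k + 2) % 4) = rot g k := by
  unfold rot
  rw [(k2 hk).2.2.1]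
  simp [neg]

theorem nearK_neg {e : ℝ} {a : ℂ} {k : ℕ} {g : Motion} (h : NearK e a k g) :
    NearK e (-a - 1 - Complex.I) ((k + 2) % 4) (neg g) := by
  obtain ⟨hk, h1, h2, h3⟩ := h
  obtain ⟨e1, e2, e3, e4, e5⟩ := k2 hk
  refine ⟨e1, ?_, ?_, ?_⟩
  · have : ((neg g).v - (-a - 1 - Complex.I)).re - 1 / 2 = -((g.v - a).re - 1 / 2) := by
      simp [neg]; ring
    rw [this, abs_neg]
    exact h1
  · have : ((neg g).v - (-a - 1 - Complex.I)).im - 1 / 2 = -((g.v - a).im - 1 / 2) := by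
      simp [neg]; ring
    rw [this, abs_neg]
    exact h2
  · have : (neg g).u - Complex.I ^ ((k + 2) % 4) = -(g.u - Complex.I ^ k) := by
      rw [e2]; simp only [neg]; ring
    rw [this, norm_neg]
    exact h3

theorem tpL_neg (t : ℝ) (g : Motion) {k : ℕ} (hk : k < 4) (x : ℝ) :
    tpL t (neg g) ((k + 2) % 4) (-x) = -btL t g k x := by
  unfold tpL btL
  rw [rot_neg g hk]
  have h1 : HY t ((k + 2) % 4) = HY t k := by
    unfold HY
    rw [(k2 hk).2.2.2.1]
  rw [h1]
  simp only [neg, Complex.neg_im, Complex.neg_re]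
  ring

/-- module F3 -/
theorem f3 (h : F2Stmt) : F3Stmt := by
  intro t g a k l x y ht ht2 hN hl hx hy1 hy2
  have hk := hN.1
  have key := h t (neg g) (-a - 1 - Complex.I) ((k + 2) % 4) (-l) (-x) (-y) ht ht2 (nearK_neg hN)
    (by
      rw [abs_neg]
      rcases hl with h0 | h0 | h0 | ⟨h0, h1⟩
      · left; rw [h0, neg_zero]
      · right; left; exact h0
      · right; right; left; exact h0
      · right; right; right; exact ⟨h0, (k2 hk).2.2.2.2 h1⟩)
    (by
      have : -x - ((-a - 1 - Complex.I).re + 1 / 2 + -l) = -(x - (a.re + 1 / 2 + l)) := by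
        simp; ring
      rw [this, abs_neg]
      exact hx)
    (by rw [tpL_neg t g hk]; linarith) (by rw [tpL_neg t g hk]; linarith)
  rw [interior_tile_neg] at key
  have h3 : -(⟨-x, -y⟩ : ℂ) = ⟨x, y⟩ := by
    apply Complex.ext <;> simp
  rwa [h3] at key

end Pool.Agent.Helper2_Pak.H18
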