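import Pool.Agent.Helper2_Pak.Stmts

/-!
# PAK1, module F5: the bumps of the top side and of the bottom side
-/

set_option autoImplicit false

namespace Pool.Agent.Helper2_Pak.H18

open Pool.Agent.Helper2_Pak
open Pool.Agent.Helper2_Pack (Motion)

theorem pit_zero {a b e : ℝ} (h1 : 0 ≤ a + b / 128) (h2 : 0 ≤ a - b / 128) (he : 1 / 64 ≤ |e|) :
    pit a b e = 0 := by
  unfold pit
  apply max_eq_left
  rcases le_abs'.mp he with h | h
  · refine (min_le_right _ _).trans ((min_le_right _ _).trans ?_)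
    exact mul_nonpos_of_nonneg_of_nonpos h2 (by linarith only [h])
  · refine (min_le_right _ _).trans ((min_le_left _ _).trans ?_)
    exact mul_nonpos_of_nonneg_of_nonpos h1 (by linarith only [h])

theorem slit_zero {t d e : ℝ} (ht : 0 < t) (hd : 0 ≤ d) (he : 2 * t ^ 7 ≤ |e|) :
    slit t d e = 0 := by
  unfold slit
  apply max_eq_left
  refine mul_nonpos_of_nonneg_of_nonpos hd ?_
  have : 1 ≤ |e| / (2 * t ^ 7) := by
    rw [le_div_iff₀ (by positivity)]
    linarith
  linarith

/-- the apexes of the bumps are in the shape -/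
theorem apex_mem {t s : ℝ} (ht : 0 < t) (ht2 : t ≤ 1 / 2 ^ 60) (hs : |s| = 1 / 4) :
    (⟨s, hh t + t ^ 3⟩ : ℂ) ∈ shape t := by
  have hts : t ≤ 1 / 1000 := ht2.trans (by norm_num)
  have ht3 : t ^ 3 ≤ 1 / 1000 := by
    calc t ^ 3 ≤ t ^ 1 := pow_le_pow_of_le_one ht.le (by linarith) (by norm_num)
      _ ≤ 1 / 1000 := by rw [pow_one]; exact hts
  have ht3' : t ^ 3 ≤ t := by
    calc t ^ 3 ≤ t ^ 1 := pow_le_pow_of_le_one ht.le (by linarith) (by norm_num)
      _ = t := pow_one t
  have ht4 : t ^ 4 ≤ t ^ 3 / 1000 := by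
    have h0 : 0 < t ^ 3 := by positivity
    have : t ^ 4 = t ^ 3 * t := by ring
    rw [this]
    nlinarith only [h0, ht2]
  have ht7 : t ^ 7 ≤ t ^ 3 := pow_le_pow_of_le_one ht.le (by linarith) (by norm_num)
  have ht2' : t ^ 2 ≤ 1 / 1000 := by
    calc t ^ 2 ≤ t ^ 1 := pow_le_pow_of_le_one ht.le (by linarith) (by norm_num)
      _ ≤ 1 / 1000 := by rw [pow_one]; exact hts
  have h3pos : 0 < t ^ 3 := by positivity
  have h4pos : 0 < t ^ 4 := by positivity
  have h2pos : 0 < t ^ 2 := by positivity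
  have hhh : 1 / 2 ≤ hh t ∧ hh t ≤ 1 / 2 + 1 / 1000 := by
    unfold hh
    constructor <;> linarith only [h2pos, ht2']
  have hs' : s = 1 / 4 ∨ s = -(1 / 4) := by
    rcases abs_choice s with h | h
    · left; rw [← hs, h]
    · right; rw [h] at hs; linarith only [hs]
  refine ⟨?_, ?_, ?_, ?_⟩
  · -- bottom
    show lo t s ≤ hh t + t ^ 3
    unfold lo dent chamf
    have c0 : max 0 (|s| - (1 / 2 - t)) = 0 := max_eq_left (by rw [hs]; linarith only [ht2])
    rw [c0]
    have d1 : max 0 (2 * t ^ 3 * (1 - 64 * |s + 1 / 4|)) ≤ 2 * t ^ 3 := by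
      refine max_le (by positivity) ?_
      have := abs_nonneg (s + 1 / 4)
      nlinarith only [ht2, ht4, this]
    have d2 : max 0 (2 * t ^ 3 * (1 - 64 * |s - 1 / 4|)) ≤ 2 * t ^ 3 := by
      refine max_le (by positivity) ?_
      have := abs_nonneg (s - 1 / 4)
      nlinarith only [ht2, ht4, this]
    linarith only [ht2, ht3', d1, d2, hhh.1]
  · -- top
    show hh t + t ^ 3 ≤ hi t s
    unfold hi bump chamf
    have c0 : max 0 (|s| - (1 / 2 - t)) = 0 := max_eq_left (by rw [hs]; linarith only [ht2])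
    rw [c0]
    rcases hs' with h | h
    · have b1 : 0 ≤ max 0 (t ^ 3 - |s + 1 / 4|) := le_max_left _ _
      have b2 : t ^ 3 ≤ max 0 (t ^ 3 - |s - 1 / 4|) := by
        rw [h]; norm_num
      linarith only [b1, b2]
    · have b1 : 0 ≤ max 0 (t ^ 3 - |s - 1 / 4|) := le_max_left _ _
      have b2 : t ^ 3 ≤ max 0 (t ^ 3 - |s + 1 / 4|) := by
        rw [h]; norm_num
      linarith only [b1, b2]
  · -- left
    show lf t (hh t + t ^ 3) ≤ s
    unfold lf
    rw [pit_zero (by linarith only [ht4, h4pos]) (by linarith only [ht4, h4pos]) (by rw [abs_of_pos] <;> linarith only [ht4, h4pos, hhh.1]),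
      pit_zero (by linarith only [ht4, h4pos]) (by linarith only [ht4, h4pos]) (by rw [abs_of_pos] <;> linarith only [ht4, h4pos, hhh.1]),
      slit_zero ht (by linarith only [ht2, ht3']) (by rw [abs_of_pos] <;> linarith only [ht2, ht3', ht7, ht4, h4pos, hhh.1]),
      slit_zero ht (by linarith only [ht2, ht3']) (by rw [abs_of_pos] <;> linarith only [ht2, ht3', ht7, ht4, h4pos, hhh.1])]
    have c0 : chamf t (hh t) (hh t + t ^ 3) ≤ 1 / 500 := by
      unfold chamf
      refine max_le (by norm_num) ?_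
      rw [abs_of_pos (by linarith only [ht4, h4pos, hhh.1])]
      linarith only [ht2, ht3']
    have : -(1 / 4) ≤ s := by rcases hs' with h | h <;> rw [h] <;> norm_num
    linarith only [c0, this]
  · -- right
    show s ≤ rt t (hh t + t ^ 3)
    unfold rt
    rw [pit_zero (by linarith only [ht4, h4pos]) (by linarith only [ht4, h4pos]) (by rw [abs_of_pos] <;> linarith only [ht4, h4pos, hhh.1]),
      pit_zero (by linarith only [ht4, h4pos]) (by linarith only [ht4, h4pos]) (by rw [abs_of_pos] <;> linarith only [ht4, h4pos, hhh.1]),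
      pit_zero (by linarith only [ht4, h4pos]) (by linarith only [ht4, h4pos]) (by rw [abs_of_pos] <;> linarith only [ht4, h4pos, hhh.1]),
      pit_zero (by linarith only [ht4, h4pos]) (by linarith only [ht4, h4pos]) (by rw [abs_of_pos] <;> linarith only [ht4, h4pos, hhh.1])]
    have c0 : chamf t (hh t) (hh t + t ^ 3) ≤ 1 / 500 := by
      unfold chamf
      refine max_le (by norm_num) ?_
      rw [abs_of_pos (by linarith only [ht4, h4pos, hhh.1])]
      linarith only [ht2, ht3']
    have : s ≤ 1 / 4 := by rcases hs' with h | h <;> rw [h] <;> norm_num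
    linarith only [c0, this]

/-- module F5 -/
theorem f5 : F5Stmt := by
  intro t g a s ht ht2 hs
  have hts : t ≤ 1 / 1000 := ht2.trans (by norm_num)
  have ht3 : t ^ 3 ≤ 1 / 1000 := by
    calc t ^ 3 ≤ t ^ 1 := pow_le_pow_of_le_one ht.le (by linarith) (by norm_num)
      _ ≤ 1 / 1000 := by rw [pow_one]; exact hts
  have ht2' : t ^ 2 ≤ 1 / 1000 := by
    calc t ^ 2 ≤ t ^ 1 := pow_le_pow_of_le_one ht.le (by linarith only [ht2]) (by norm_num)
      _ ≤ 1 / 1000 := by rw [pow_one]; exact hts
  have h3pos : 0 < t ^ 3 := by positivity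
  have h2pos : 0 < t ^ 2 := by positivity
  have hhh : 1 / 2 ≤ hh t ∧ hh t ≤ 1 / 2 + 1 / 1000 := by
    unfold hh
    constructor <;> linarith only [h2pos, ht2']
  have hsb : |s| = 1 / 4 := hs
  have hs2 := abs_le.mp hs.le
  have hunit : g.u.re ^ 2 + g.u.im ^ 2 = 1 := by
    have h := g.unit
    have h2 : ‖g.u‖ ^ 2 = 1 := by rw [h]; norm_num
    rw [← Complex.normSq_eq_norm_sq, Complex.normSq_apply] at h2
    linarith only [h2, sq g.u.re, sq g.u.im]
  constructor
  · rintro ⟨-, h1, h2, h3⟩
    rw [pow_zero] at h3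
    have hre := (Complex.abs_re_le_norm (g.u - 1)).trans h3
    have him := (Complex.abs_im_le_norm (g.u - 1)).trans h3
    rw [Complex.sub_re, Complex.one_re] at hre
    rw [Complex.sub_im, Complex.one_im, sub_zero] at him
    rw [abs_le] at hre him
    rw [Complex.sub_re] at h1
    rw [abs_le] at h1
    set c := g.u.re with hc
    set d := g.u.im with hd
    have hcpos : 0 < c := by linarith only [hre]
    refine ⟨g.app ⟨s, hh t + t ^ 3⟩, ⟨_, apex_mem ht ht2 hs, rfl⟩, ?_, ?_⟩
    · have e1 : (g.app ⟨s, hh t + t ^ 3⟩).re = c * s - d * (hh t + t ^ 3) + g.v.re := by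
        simp [Motion.app, hc, hd]
      rw [e1, abs_le]
      constructor <;> nlinarith only [hhh, hs2, h1, hre, him, h3pos, ht3]
    · have e1 : (g.app ⟨s, hh t + t ^ 3⟩).re = c * s - d * (hh t + t ^ 3) + g.v.re := by
        simp [Motion.app, hc, hd]
      have e2 : (g.app ⟨s, hh t + t ^ 3⟩).im = c * (hh t + t ^ 3) + d * s + g.v.im := by
        simp [Motion.app, hc, hd]
      rw [e1, e2]
      unfold tpL
      have r0 : rot g 0 = g.u := by simp [rot]
      have y0 : HY t 0 = hh t := by simp [HY]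
      rw [r0, y0, ← hc, ← hd]
      field_simp
      linear_combination (hh t + t ^ 3) * hunit
  · rintro ⟨-, h1, h2, h3⟩
    rw [Complex.I_sq, sub_neg_eq_add] at h3
    have hre := (Complex.abs_re_le_norm (g.u + 1)).trans h3
    have him := (Complex.abs_im_le_norm (g.u + 1)).trans h3
    rw [Complex.add_re, Complex.one_re] at hre
    rw [Complex.add_im, Complex.one_im, add_zero] at him
    rw [abs_le] at hre him
    rw [Complex.sub_re] at h1
    rw [abs_le] at h1
    set c := g.u.re with hc
    set d := g.u.im with hd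
    have hcneg : c < 0 := by linarith only [hre]
    have hs' : |-s| = 1 / 4 := by rw [abs_neg]; exact hs
    refine ⟨g.app ⟨-s, hh t + t ^ 3⟩, ⟨_, apex_mem ht ht2 hs', rfl⟩, ?_, ?_⟩
    · have e1 : (g.app ⟨-s, hh t + t ^ 3⟩).re = -(c * s) - d * (hh t + t ^ 3) + g.v.re := by
        simp [Motion.app, hc, hd]
      rw [e1, abs_le]
      constructor <;> nlinarith only [hhh, hs2, h1, hre, him, h3pos, ht3]
    · have e1 : (g.app ⟨-s, hh t + t ^ 3⟩).re = -(c * s) - d * (hh t + t ^ 3) + g.v.re := by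
        simp [Motion.app, hc, hd]
      have e2 : (g.app ⟨-s, hh t + t ^ 3⟩).im = c * (hh t + t ^ 3) - d * s + g.v.im := by
        simp [Motion.app, hc, hd]
        ring
      rw [e1, e2]
      unfold btL
      have r0 : rot g 2 = -g.u := by simp [rot]
      have y0 : HY t 2 = hh t := by simp [HY]
      have hc0 : c ≠ 0 := hcneg.ne
      rw [r0, y0, Complex.neg_re, Complex.neg_im, ← hc, ← hd, neg_div_neg_eq, div_neg, div_neg]
      field_simp
      linear_combination (hh t + t ^ 3) * hunit

end Pool.Agent.Helper2_Pak.H18
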